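import Pool.Agent.H.MP_0cacf8.PartExempt

set_option autoImplicit false

namespace Pool.Agent.Results.MP_0cacf8_co.ExemptCores

open Relation Finset Pool.Agent.H.MP_0cacf8

/-- `G` contains a subdivision of the bidirected triangle: distinct vertices `a, b, c` and six
directed paths, one for each ordered pair of them, whose inner vertices (the lists `P₁, ..., P₆`)
are all distinct and different from `a, b, c`. -/
def ContainsK3 {n : ℕ} (G : Digraph (Fin n)) : Prop :=
  ∃ a b c : Fin n, ∃ P₁ P₂ P₃ P₄ P₅ P₆ : List (Fin n),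
    (∀ L ∈ [a :: (P₁ ++ [b]), b :: (P₂ ++ [a]), b :: (P₃ ++ [c]),
            c :: (P₄ ++ [b]), c :: (P₅ ++ [a]), a :: (P₆ ++ [c])],
      ∀ p ∈ L.zip L.tail, G.Adj p.1 p.2) ∧
    ([a, b, c] ++ P₁ ++ P₂ ++ P₃ ++ P₄ ++ P₅ ++ P₆).Nodup

/-- Every vertex can be reached from every vertex by a directed path. -/
def Strong {n : ℕ} (G : Digraph (Fin n)) : Prop := ∀ u v, ReflTransGen G.Adj u v

open Classical in
/-- The set of in-neighbours of `y` (other than `y`). -/
noncomputable def inNbrs {n : ℕ} (G : Digraph (Fin n)) (y : Fin n) : Finset (Fin n) :=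
  (Finset.univ : Finset (Fin n)).filter (fun p => p ≠ y ∧ G.Adj p y)

open Classical in
/-- The set of out-neighbours of `y` (other than `y`). -/
noncomputable def outNbrs {n : ℕ} (G : Digraph (Fin n)) (y : Fin n) : Finset (Fin n) :=
  (Finset.univ : Finset (Fin n)).filter (fun p => p ≠ y ∧ G.Adj y p)

/-- Let `G` be a strongly connected digraph and `A`, `B`, `Z` pairwise disjoint vertex sets, `Z`
possibly empty, such that any two vertices of `Z` are joined by a directed path inside `Z`, every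
vertex of `A` has an out-neighbour in `Z` or two out-neighbours in `A`, every vertex of `B` has an
in-neighbour in `Z` or two in-neighbours in `B`, every vertex `v` of `A` is reached from some vertex
of `B ∪ Z` by a directed path whose vertices other than `v` are outside `A`, and from every vertex
`v` of `B` there is a directed path to some vertex of `A ∪ Z` whose vertices other than `v` are
outside `B`. Suppose that `A` has a nonempty subset `X` in which every vertex has two out-neighbours,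
or that `B` has a nonempty subset `X` in which every vertex has two in-neighbours. Then `G` contains
a subdivision of the bidirected triangle. There is no condition on the other vertices. -/
theorem result :
    ∀ (n : ℕ) (G : Digraph (Fin n)) (A B Z X : Finset (Fin n)), Strong G → X.Nonempty →
      ((X ⊆ A ∧ ∀ x ∈ X, 2 ≤ (outNbrs G x ∩ X).card) ∨
        (X ⊆ B ∧ ∀ x ∈ X, 2 ≤ (inNbrs G x ∩ X).card)) →
      Disjoint A B → Disjoint Z (A ∪ B) →
      (∀ x ∈ Z, ∀ y ∈ Z, ReflTransGen (fun u v => u ∈ Z ∧ v ∈ Z ∧ G.Adj u v) x y) →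
      (∀ x ∈ A, (outNbrs G x ∩ Z).Nonempty ∨ 2 ≤ (outNbrs G x ∩ A).card) →
      (∀ x ∈ B, (inNbrs G x ∩ Z).Nonempty ∨ 2 ≤ (inNbrs G x ∩ B).card) →
      (∀ v ∈ A, ∃ b ∈ B ∪ Z, ReflTransGen (fun x y => G.Adj x y ∧ x ∉ A) b v) →
      (∀ v ∈ B, ∃ a ∈ A ∪ Z, ReflTransGen (fun x y => G.Adj x y ∧ y ∉ B) v a) →
      ContainsK3 G := by
  classical
  intro n G A B Z X hs hXne hX hd hZ hZs hdA hdB hfrom hto
  have htwo : ∀ (v : Fin n) (S : Finset (Fin n)), 2 ≤ (outNbrs G v ∩ S).card →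
      ∃ p ∈ S, ∃ q ∈ S, p ≠ q ∧ p ≠ v ∧ q ≠ v ∧ G.Adj v p ∧ G.Adj v q := by
    intro v S h2
    obtain ⟨p, hp, q, hq, hpq⟩ := Finset.one_lt_card.1 h2
    rw [mem_inter] at hp hq
    have h3 := (mem_filter.1 hp.1).2
    have h4 := (mem_filter.1 hq.1).2
    exact ⟨p, hp.2, q, hq.2, hpq, h3.1, h4.1, h3.2, h4.2⟩
  have htwo' : ∀ (v : Fin n) (S : Finset (Fin n)), 2 ≤ (inNbrs G v ∩ S).card →
      ∃ p ∈ S, ∃ q ∈ S, p ≠ q ∧ p ≠ v ∧ q ≠ v ∧ G.Adj p v ∧ G.Adj q v := by
    intro v S h2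
    obtain ⟨p, hp, q, hq, hpq⟩ := Finset.one_lt_card.1 h2
    rw [mem_inter] at hp hq
    have h3 := (mem_filter.1 hp.1).2
    have h4 := (mem_filter.1 hq.1).2
    exact ⟨p, hp.2, q, hq.2, hpq, h3.1, h4.1, h3.2, h4.2⟩
  have H : TwoExempt G.Adj Z A B := by
    refine ⟨hs, ?_, hd, hZ.mono_right subset_union_left, hZ.mono_right subset_union_right,
      ?_, ?_, ?_, ?_⟩
    · intro u hu v hv
      refine ReflTransGen.mono ?_ _ _ (hZs u hu v hv)
      intro a b hab
      exact ⟨mem_coe.2 hab.1, mem_coe.2 hab.2.1, hab.2.2⟩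
    · intro x hx
      rcases hdA x hx with ⟨z, hz⟩ | h2
      · exact Or.inl ⟨z, (mem_inter.1 hz).2, ((mem_filter.1 (mem_inter.1 hz).1).2).2⟩
      · exact Or.inr (htwo x A h2)
    · intro x hx
      rcases hdB x hx with ⟨z, hz⟩ | h2
      · exact Or.inl ⟨z, (mem_inter.1 hz).2, ((mem_filter.1 (mem_inter.1 hz).1).2).2⟩
      · exact Or.inr (htwo' x B h2)
    · intro v hv
      obtain ⟨b, hb, hp⟩ := hfrom v hv
      exact ⟨b, mem_union.1 hb, hp⟩
    · intro v hv
      obtain ⟨a, ha, hp⟩ := hto v hv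
      exact ⟨a, mem_union.1 ha, hp⟩
  rcases hX with ⟨h1, h2⟩ | ⟨h1, h2⟩
  · exact lists_of_K3set (K3_of_twoExempt H ⟨h1, hXne, fun x hx => htwo x X (h2 x hx)⟩)
  · exact lists_of_K3set (K3_of_twoExempt' H ⟨h1, hXne, fun x hx => htwo' x X (h2 x hx)⟩)

end Pool.Agent.Results.MP_0cacf8_co.ExemptCores
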