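import Pool.Agent.H.MP_0cacf8.HubSplit

set_option autoImplicit false

namespace Pool.Agent.Results.MP_0cacf8_co.HubsBoundedRest

open Relation Finset Pool.Agent.H.MP_0cacf8

/-- `G` contains a subdivision of the bidirected triangle: distinct vertices `a, b, c` and six
directed paths, one for each ordered pair of them, whose inner vertices (the lists `P₁, ..., P₆`)
are all distinct and different from `a, b, c`. -/
def ContainsK3 {n : ℕ} (G : Digraph (Fin n)) : Prop :=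
  ∃ a b c : Fin n, ∃ P₁ P₂ P₃ P₄ P₅ P₆ : List (Fin n),
    (∀ L ∈ [a :: (P₁ ++ [b]), b :: (P₂ ++ [a]), b :: (P₃ ++ [c]),
            c :: (P₄ ++ [b]), c :: (P₅ ++ [a]), a :: (P₆ ++ [c])],
      ∀ p ∈ L.zip L.tail, G.Adj p.1 p.2) ∧
    ([a, b, c] ++ P₁ ++ P₂ ++ P₃ ++ P₄ ++ P₅ ++ P₆).Nodup

/-- Every vertex can be reached from every vertex by a directed path. -/
def Strong {n : ℕ} (G : Digraph (Fin n)) : Prop := ∀ u v, ReflTransGen G.Adj u v

open Classical in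
/-- The set of in-neighbours of `y` (other than `y`). -/
noncomputable def inNbrs {n : ℕ} (G : Digraph (Fin n)) (y : Fin n) : Finset (Fin n) :=
  (Finset.univ : Finset (Fin n)).filter (fun p => p ≠ y ∧ G.Adj p y)

open Classical in
/-- The set of out-neighbours of `y` (other than `y`). -/
noncomputable def outNbrs {n : ℕ} (G : Digraph (Fin n)) (y : Fin n) : Finset (Fin n) :=
  (Finset.univ : Finset (Fin n)).filter (fun p => p ≠ y ∧ G.Adj y p)

/-- Let `G` be a strongly connected digraph, `Z` a set of vertices (possibly empty) any two of which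
are joined by a directed path inside `Z`, `W` a set of vertices outside `Z` and `H₁`, `H₂` disjoint
subsets of `W`. Let every vertex `v` of `W` be given a set `P v` of out-neighbours and a set `Q v` of
in-neighbours in `W \ (H₁ ∪ H₂)` such that `P v` has `k ≥ 1` elements, or is empty and `v` has an
out-neighbour in `Z` or two out-neighbours in `H₁`; and `Q v` has `k` elements, or is empty and `v`
has an in-neighbour in `Z` or two in-neighbours in `H₂`. Let `X` be a nonempty subset of `W` such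
that every `v` in `X` satisfies `P v ⊆ X`, `|P v| = k` or has two out-neighbours in `H₁ ∩ X`, or such
that every `v` in `X` satisfies `Q v ⊆ X`, `|Q v| = k` or has two in-neighbours in `H₂ ∩ X`. If every
vertex lies in at most `Δ` of the sets `P v` and in at most `Δ` of the sets `Q v`, `v ∈ W`, where
`8 k (k + 1) Δ ≤ 2 ^ k`, or if `2 (k + 1) |W| < 2 ^ k`, then `G` contains a subdivision of the
bidirected triangle. -/
theorem result :
    ∀ (k Δ n : ℕ) (G : Digraph (Fin n)) (Z W H₁ H₂ X : Finset (Fin n))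
      (P Q : Fin n → Finset (Fin n)), 1 ≤ k → Strong G →
      (∀ x ∈ Z, ∀ y ∈ Z, ReflTransGen (fun u v => u ∈ Z ∧ v ∈ Z ∧ G.Adj u v) x y) →
      Disjoint Z W → H₁ ⊆ W → H₂ ⊆ W → Disjoint H₁ H₂ →
      (∀ v ∈ W, P v ⊆ outNbrs G v ∩ (W \ (H₁ ∪ H₂)) ∧ ((P v).card = k ∨
        P v = ∅ ∧ ((outNbrs G v ∩ Z).Nonempty ∨ 2 ≤ (outNbrs G v ∩ H₁).card))) →
      (∀ v ∈ W, Q v ⊆ inNbrs G v ∩ (W \ (H₁ ∪ H₂)) ∧ ((Q v).card = k ∨
        Q v = ∅ ∧ ((inNbrs G v ∩ Z).Nonempty ∨ 2 ≤ (inNbrs G v ∩ H₂).card))) →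
      X ⊆ W → X.Nonempty →
      ((∀ v ∈ X, P v ⊆ X ∧ (P v).card = k ∨ 2 ≤ (outNbrs G v ∩ (H₁ ∩ X)).card) ∨
        (∀ v ∈ X, Q v ⊆ X ∧ (Q v).card = k ∨ 2 ≤ (inNbrs G v ∩ (H₂ ∩ X)).card)) →
      ((∀ x ∈ W, (W.filter fun v => x ∈ P v).card ≤ Δ ∧ (W.filter fun v => x ∈ Q v).card ≤ Δ) ∧
          8 * k * (k + 1) * Δ ≤ 2 ^ k ∨ 2 * (k + 1) * W.card < 2 ^ k) → ContainsK3 G := by
  classical
  intro k Δ n G Z W H₁ H₂ X P Q hk hs hZs hZW hH₁ hH₂ hH hP hQ hXW hXne hX h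
  have hout : ∀ v x, x ∈ outNbrs G v → x ≠ v ∧ G.Adj v x := fun v x hx => (mem_filter.1 hx).2
  have hin : ∀ v x, x ∈ inNbrs G v → x ≠ v ∧ G.Adj x v := fun v x hx => (mem_filter.1 hx).2
  have htwo : ∀ (v : Fin n) (S : Finset (Fin n)), 2 ≤ (outNbrs G v ∩ S).card →
      ∃ p ∈ S, ∃ q ∈ S, p ≠ q ∧ p ≠ v ∧ q ≠ v ∧ G.Adj v p ∧ G.Adj v q := by
    intro v S h2
    obtain ⟨p, hp, q, hq, hpq⟩ := Finset.one_lt_card.1 h2
    rw [mem_inter] at hp hq
    have h3 := hout v p hp.1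
    have h4 := hout v q hq.1
    exact ⟨p, hp.2, q, hq.2, hpq, h3.1, h4.1, h3.2, h4.2⟩
  have htwo' : ∀ (v : Fin n) (S : Finset (Fin n)), 2 ≤ (inNbrs G v ∩ S).card →
      ∃ p ∈ S, ∃ q ∈ S, p ≠ q ∧ p ≠ v ∧ q ≠ v ∧ G.Adj p v ∧ G.Adj q v := by
    intro v S h2
    obtain ⟨p, hp, q, hq, hpq⟩ := Finset.one_lt_card.1 h2
    rw [mem_inter] at hp hq
    have h3 := hin v p hp.1
    have h4 := hin v q hq.1
    exact ⟨p, hp.2, q, hq.2, hpq, h3.1, h4.1, h3.2, h4.2⟩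
  have H : HubFam G.Adj k Z W H₁ H₂ P Q := by
    refine ⟨hs, ?_, hZW, hH₁, hH₂, hH, ?_, ?_⟩
    · intro u hu v hv
      refine ReflTransGen.mono ?_ _ _ (hZs u hu v hv)
      intro a b hab
      exact ⟨mem_coe.2 hab.1, mem_coe.2 hab.2.1, hab.2.2⟩
    · intro v hv
      refine ⟨⟨fun x hx => (mem_inter.1 ((hP v hv).1 hx)).2,
        fun x hx => hout v x (mem_inter.1 ((hP v hv).1 hx)).1⟩, ?_⟩
      rcases (hP v hv).2 with h1 | ⟨h1, h2 | h2⟩
      · exact Or.inl h1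
      · obtain ⟨z, hz⟩ := h2
        exact Or.inr ⟨h1, Or.inl ⟨z, (mem_inter.1 hz).2, (hout v z (mem_inter.1 hz).1).2⟩⟩
      · exact Or.inr ⟨h1, Or.inr (htwo v H₁ h2)⟩
    · intro v hv
      refine ⟨⟨fun x hx => (mem_inter.1 ((hQ v hv).1 hx)).2,
        fun x hx => hin v x (mem_inter.1 ((hQ v hv).1 hx)).1⟩, ?_⟩
      rcases (hQ v hv).2 with h1 | ⟨h1, h2 | h2⟩
      · exact Or.inl h1
      · obtain ⟨z, hz⟩ := h2
        exact Or.inr ⟨h1, Or.inl ⟨z, (mem_inter.1 hz).2, (hin v z (mem_inter.1 hz).1).2⟩⟩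
      · exact Or.inr ⟨h1, Or.inr (htwo' v H₂ h2)⟩
  rcases hX with hX | hX
  · exact lists_of_K3set (K3_of_hubFam H Δ X hk hXW hXne
      (fun v hv => (hX v hv).imp id (htwo v (H₁ ∩ X))) h)
  · exact lists_of_K3set (K3_of_hubFam' H Δ X hk hXW hXne
      (fun v hv => (hX v hv).imp id (htwo' v (H₂ ∩ X))) h)

end Pool.Agent.Results.MP_0cacf8_co.HubsBoundedRest
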