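import Pool.Agent.H.MP_0cacf8.EYZ

set_option autoImplicit false

namespace Pool.Agent.Results.MP_0cacf8_co.LocalHub

open Relation Pool.Agent.H.MP_0cacf8

/-- `G` contains a subdivision of the bidirected triangle: distinct vertices `a, b, c` and six
directed paths, one for each ordered pair of them, whose inner vertices (the lists `P₁, ..., P₆`)
are all distinct and different from `a, b, c`. -/
def ContainsK3 {n : ℕ} (G : Digraph (Fin n)) : Prop :=
  ∃ a b c : Fin n, ∃ P₁ P₂ P₃ P₄ P₅ P₆ : List (Fin n),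
    (∀ L ∈ [a :: (P₁ ++ [b]), b :: (P₂ ++ [a]), b :: (P₃ ++ [c]),
            c :: (P₄ ++ [b]), c :: (P₅ ++ [a]), a :: (P₆ ++ [c])],
      ∀ p ∈ L.zip L.tail, G.Adj p.1 p.2) ∧
    ([a, b, c] ++ P₁ ++ P₂ ++ P₃ ++ P₄ ++ P₅ ++ P₆).Nodup

/-- The digraph has no loops. -/
def Loopless {n : ℕ} (G : Digraph (Fin n)) : Prop := ∀ v, ¬ G.Adj v v

/-- The digraph is strongly connected. -/
def StronglyConnected {n : ℕ} (G : Digraph (Fin n)) : Prop := ∀ u v, ReflTransGen G.Adj u v

/-- There is a directed path (possibly trivial) from `u` to `w` all of whose vertices are outside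
`X`. -/
def PathOff {n : ℕ} (G : Digraph (Fin n)) (X : Finset (Fin n)) (u w : Fin n) : Prop :=
  u ∉ X ∧ w ∉ X ∧ ReflTransGen (fun x y => x ∉ X ∧ y ∉ X ∧ G.Adj x y) u w

/-- There is a directed path from `x` to `h` all of whose vertices other than `x` are outside
`X`. -/
def Exit {n : ℕ} (G : Digraph (Fin n)) (X : Finset (Fin n)) (h x : Fin n) : Prop :=
  ∃ u, G.Adj x u ∧ PathOff G X u h

/-- There is a directed path from `h` to `x` all of whose vertices other than `x` are outside
`X`. -/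
def Entry {n : ℕ} (G : Digraph (Fin n)) (X : Finset (Fin n)) (h x : Fin n) : Prop :=
  ∃ u, PathOff G X h u ∧ G.Adj u x

open Classical in
/-- The number of in-neighbours of `x` in `X`. -/
noncomputable def inDeg {n : ℕ} (G : Digraph (Fin n)) (X : Finset (Fin n)) (x : Fin n) : ℕ :=
  (X.filter (fun p => G.Adj p x)).card

open Classical in
/-- The number of out-neighbours of `x` in `X`. -/
noncomputable def outDeg {n : ℕ} (G : Digraph (Fin n)) (X : Finset (Fin n)) (x : Fin n) : ℕ :=
  (X.filter (fun p => G.Adj x p)).card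

theorem off {n : ℕ} {G : Digraph (Fin n)} {X : Finset (Fin n)} {u w : Fin n}
    (h : ReflTransGen (fun x y => x ∉ X ∧ y ∉ X ∧ G.Adj x y) u w) :
    RR G.Adj ((X : Set (Fin n))ᶜ) u w := by
  induction h with
  | refl => exact ReflTransGen.refl
  | tail _ g ih => exact ih.tail ⟨fun k => g.1 (by exact_mod_cast k),
      fun k => g.2.1 (by exact_mod_cast k), g.2.2⟩

theorem off' {n : ℕ} {G : Digraph (Fin n)} {X : Finset (Fin n)} {u w : Fin n}
    (h : RR G.Adj ((X : Set (Fin n))ᶜ) u w) :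
    ReflTransGen (fun x y => x ∉ X ∧ y ∉ X ∧ G.Adj x y) u w := by
  induction h with
  | refl => exact ReflTransGen.refl
  | tail _ g ih => exact ih.tail ⟨fun k => g.1 (by exact_mod_cast k),
      fun k => g.2.1 (by exact_mod_cast k), g.2.2⟩

theorem rr_start {n : ℕ} {G : Digraph (Fin n)} {X : Finset (Fin n)} {u w : Fin n} (hw : w ∉ X)
    (h : RR G.Adj ((X : Set (Fin n))ᶜ) u w) : u ∉ X := by
  rcases ReflTransGen.cases_head h with g | ⟨b, g, _⟩
  · exact g ▸ hw
  · exact fun k => g.1 (by exact_mod_cast k)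

theorem exit_iff {n : ℕ} {G : Digraph (Fin n)} {X : Finset (Fin n)} {h x : Fin n} (hh : h ∉ X) :
    Exit G X h x ↔ ExitOff G.Adj X h x := by
  constructor
  · rintro ⟨u, h1, h2, _, h3⟩
    exact ⟨u, h2, h1, off h3⟩
  · rintro ⟨u, h1, h2, h3⟩
    exact ⟨u, h2, h1, hh, off' h3⟩

theorem entry_iff {n : ℕ} {G : Digraph (Fin n)} {X : Finset (Fin n)} {h x : Fin n} (hh : h ∉ X) :
    Entry G X h x ↔ EntryOff G.Adj X h x := by
  constructor
  · rintro ⟨u, ⟨_, h2, h3⟩, h1⟩
    exact ⟨u, h2, h1, off h3⟩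
  · rintro ⟨u, h1, h2, h3⟩
    exact ⟨u, ⟨hh, h1, off' h3⟩, h2⟩

theorem many {n : ℕ} {X : Finset (Fin n)} {r : Fin n → Prop} [DecidablePred r]
    (h : 4 ≤ (X.filter r).card) (A : Finset (Fin n)) (hA : A.card ≤ 3) :
    ∃ w ∈ X, w ∉ A ∧ r w := by
  by_contra hcon
  push Not at hcon
  have h1 : X.filter r ⊆ A := by
    intro w hw
    obtain ⟨h2, h3⟩ := Finset.mem_filter.1 hw
    by_contra h4
    exact hcon w h2 h4 h3
  have := Finset.card_le_card h1
  omega

theorem two {n : ℕ} {X : Finset (Fin n)} {r : Fin n → Prop} [DecidablePred r]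
    (h : 2 ≤ (X.filter r).card) : ∃ p ∈ X, ∃ q ∈ X, p ≠ q ∧ r p ∧ r q := by
  obtain ⟨p, hp, q, hq, hpq⟩ := Finset.one_lt_card.1 (by omega : 1 < (X.filter r).card)
  obtain ⟨h1, h2⟩ := Finset.mem_filter.1 hp
  obtain ⟨h3, h4⟩ := Finset.mem_filter.1 hq
  exact ⟨p, h1, q, h3, hpq, h2, h4⟩

/-- Let `D` be a strongly connected loopless digraph, `h` a vertex and `X` a nonempty set of
vertices with `h ∉ X`. A vertex `x ∈ X` is an exit (an entry) if there is a directed path from `x`
to `h` (from `h` to `x`) all of whose vertices other than `x` are outside `X`. Suppose that every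
vertex of `X` is an exit or an entry, that in the subdigraph induced by `X` all in-degrees, or all
out-degrees, are at least two, every vertex which is not an exit has out-degree at least four and
every vertex which is not an entry has in-degree at least four. Then `D` contains a subdivision of
the bidirected triangle. -/
theorem result (n : ℕ) (G : Digraph (Fin n)) (h : Fin n) (X : Finset (Fin n)) (hloop : Loopless G)
    (hstrong : StronglyConnected G) (hX : X.Nonempty) (hh : h ∉ X)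
    (hadj : ∀ x ∈ X, Exit G X h x ∨ Entry G X h x)
    (htwo : (∀ x ∈ X, 2 ≤ inDeg G X x) ∨ (∀ x ∈ X, 2 ≤ outDeg G X x))
    (hexit : ∀ x ∈ X, ¬ Exit G X h x → 4 ≤ outDeg G X x)
    (hentry : ∀ x ∈ X, ¬ Entry G X h x → 4 ≤ inDeg G X x) : ContainsK3 G := by
  classical
  have h0 : ∀ x ∈ X, ExitOff G.Adj X h x ∨ EntryOff G.Adj X h x := fun x hx =>
    (hadj x hx).imp (exit_iff hh).1 (entry_iff hh).1
  have h2 : ∀ x ∈ X, ¬ EntryOff G.Adj X h x → ∀ A : Finset (Fin n), A.card ≤ 3 →
      ∃ w ∈ X, w ∉ A ∧ G.Adj w x := fun x hx hx' A hA =>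
    many (hentry x hx (fun g => hx' ((entry_iff hh).1 g))) A hA
  have h3 : ∀ x ∈ X, ¬ ExitOff G.Adj X h x → ∀ A : Finset (Fin n), A.card ≤ 3 →
      ∃ w ∈ X, w ∉ A ∧ G.Adj x w := fun x hx hx' A hA =>
    many (hexit x hx (fun g => hx' ((exit_iff hh).1 g))) A hA
  refine lists_of_K3set (K3set_of_K3off (h := h) ?_)
  rcases htwo with h1 | h1
  · exact eyloc hloop hstrong h X hX hh h0 (fun x hx => two (h1 x hx)) h2 h3
  · exact eyloc' hloop hstrong h X hX hh h0 (fun x hx => two (h1 x hx)) h2 h3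

end Pool.Agent.Results.MP_0cacf8_co.LocalHub
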