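import Pool.Agent.H.MP_0cacf8.Arc

set_option autoImplicit false

namespace Pool.Agent.Results.MP_0cacf8_co.TwoInNeighbours

open Relation Pool.Agent.H.MP_0cacf8

/-- `G` contains a subdivision of the bidirected triangle: distinct vertices `a, b, c` and six
directed paths, one for each ordered pair of them, whose inner vertices (the lists `P₁, ..., P₆`)
are all distinct and different from `a, b, c`. -/
def ContainsK3 {n : ℕ} (G : Digraph (Fin n)) : Prop :=
  ∃ a b c : Fin n, ∃ P₁ P₂ P₃ P₄ P₅ P₆ : List (Fin n),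
    (∀ L ∈ [a :: (P₁ ++ [b]), b :: (P₂ ++ [a]), b :: (P₃ ++ [c]),
            c :: (P₄ ++ [b]), c :: (P₅ ++ [a]), a :: (P₆ ++ [c])],
      ∀ p ∈ L.zip L.tail, G.Adj p.1 p.2) ∧
    ([a, b, c] ++ P₁ ++ P₂ ++ P₃ ++ P₄ ++ P₅ ++ P₆).Nodup

/-- The arc-connectivity is at least `k`: after the deletion of fewer than `k` arcs the digraph is
still strongly connected. -/
def ArcConnectivityAtLeast {n : ℕ} (G : Digraph (Fin n)) (k : ℕ) : Prop :=
  ∀ F : Finset (Fin n × Fin n), F.card < k → ∀ u v : Fin n,
    ReflTransGen (fun x y => G.Adj x y ∧ (x, y) ∉ F) u v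

open Classical in
/-- The number of in-neighbours of `y` (other than `y`). -/
noncomputable def inDegree {n : ℕ} (G : Digraph (Fin n)) (y : Fin n) : ℕ :=
  ((Finset.univ : Finset (Fin n)).filter (fun p => p ≠ y ∧ G.Adj p y)).card

open Classical in
/-- The number of out-neighbours of `y` (other than `y`). -/
noncomputable def outDegree {n : ℕ} (G : Digraph (Fin n)) (y : Fin n) : ℕ :=
  ((Finset.univ : Finset (Fin n)).filter (fun p => p ≠ y ∧ G.Adj y p)).card

/-- (1) Let `t` be a vertex and `X` a nonempty set of vertices not containing `t`, such that every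
`x ∈ X` has two in-neighbours in `X`, is reachable from `t`, and has a directed path to `t` all
whose vertices after `x` are outside `X`; or the same with all arcs reversed. Then the digraph
contains a subdivision of the bidirected triangle.
(2) So does every digraph with `n ≥ 2` vertices and arc-connectivity at least `k ≥ 3` in which some
vertex has in-degree or out-degree at least `n + 2 - k`. -/
theorem result :
    (∀ (n : ℕ) (G : Digraph (Fin n)) (t : Fin n) (X : Finset (Fin n)), X.Nonempty → t ∉ X →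
      ((∀ x ∈ X, (∃ p ∈ X, ∃ q ∈ X, p ≠ q ∧ p ≠ x ∧ q ≠ x ∧ G.Adj p x ∧ G.Adj q x) ∧
          ReflTransGen G.Adj t x ∧ ReflTransGen (fun a b => G.Adj a b ∧ b ∉ X) x t) ∨
        (∀ x ∈ X, (∃ p ∈ X, ∃ q ∈ X, p ≠ q ∧ p ≠ x ∧ q ≠ x ∧ G.Adj x p ∧ G.Adj x q) ∧
          ReflTransGen G.Adj x t ∧ ReflTransGen (fun a b => G.Adj a b ∧ a ∉ X) t x)) →
      ContainsK3 G) ∧
    (∀ (k n : ℕ) (G : Digraph (Fin n)), 3 ≤ k → 2 ≤ n → ArcConnectivityAtLeast G k →
      (∃ y, n + 2 ≤ inDegree G y + k ∨ n + 2 ≤ outDegree G y + k) → ContainsK3 G) := by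
  classical
  constructor
  · intro n G t X hX ht h
    rcases h with h | h
    · exact lists_of_K3set (thmE t X hX ht (fun x hx => (h x hx).1) (fun x hx => (h x hx).2.1)
        (fun x hx => (h x hx).2.2))
    · refine lists_of_K3set (K3set_flip (thmE t X hX ht (fun x hx => (h x hx).1) ?_ ?_))
      · intro x hx
        exact rtg_flip (h x hx).2.1 (fun _ _ h => h)
      · intro x hx
        exact rtg_flip (h x hx).2.2 (fun _ _ h => h)
  · intro k n G hk hn hG hy
    have hnt : Nontrivial (Fin n) := Fin.nontrivial_iff_two_le.2 hn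
    obtain ⟨y, hy | hy⟩ := hy
    · refine lists_of_K3set (K3_of_indeg (adj := G.Adj) hnt hk hG y ?_)
      rw [Fintype.card_fin]
      exact hy
    · refine lists_of_K3set (K3set_flip (K3_of_indeg hnt hk (ArcStrong.flip (adj := G.Adj) hG) y ?_))
      rw [Fintype.card_fin]
      exact hy

end Pool.Agent.Results.MP_0cacf8_co.TwoInNeighbours
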